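import Pool.Agent.Work.MP_ce2d68_du.Interface

set_option autoImplicit false

open Polynomial Filter Topology
open scoped ComplexConjugate

/-! Block `BASEQ`: the base, from `MPOLY` and `JENL`. -/

namespace Pool.Agent.Work.MP_ce2d68_du_h90

open Pool.Agent.Work.MP_ce2d68_st Pool.Agent.Work.MP_ce2d68_du

/-- comparison of circle averages -/
theorem ca_log_le (Q : ℤ[X]) (hQ : Q ≠ 0) (f : ℂ → ℝ) (hf : Continuous f)
    (hle : ∀ z, ev Q z ≠ 0 → Real.log ‖ev Q z‖ ≤ f z) (a : ℂ) (t : ℝ) (ht : 0 < t) :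
    Real.circleAverage (fun z => Real.log ‖ev Q z‖) a t ≤ Real.circleAverage f a t := by
  classical
  have hcp : cp Q ≠ 0 := by
    unfold cp
    rw [Ne, Polynomial.map_eq_zero_iff (RingHom.injective_int _)]
    exact hQ
  have hfin : {z : ℂ | ev Q z = 0}.Finite := by
    have h := Polynomial.finite_setOfPred_isRoot hcp
    exact h
  have hco : {z : ℂ | ev Q z = 0}ᶜ ∈ codiscreteWithin (Metric.sphere a |t|) :=
    codiscreteWithin_mono (Set.subset_univ _) hfin.compl_mem_codiscrete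
  have hcong : (fun z => Real.log ‖ev Q z‖) =ᶠ[codiscreteWithin (Metric.sphere a |t|)]
      (fun z => if ev Q z = 0 then f z else Real.log ‖ev Q z‖) := by
    filter_upwards [hco] with z hz
    have hz' : ev Q z ≠ 0 := hz
    simp [hz']
  have hint : CircleIntegrable (fun z => Real.log ‖ev Q z‖) a t := by
    apply MeromorphicOn.circleIntegrable_log_norm
    intro z _
    have h : AnalyticAt ℂ (fun z => (cp Q).eval z) z := (cp Q).differentiable.analyticAt z
    exact h.meromorphicAt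
  rw [Real.circleAverage_congr_codiscreteWithin hcong ht.ne']
  apply Real.circleAverage_mono (CircleIntegrable.congr_codiscreteWithin hcong hint)
    (hf.continuousOn.circleIntegrable ht.le)
  intro x _
  by_cases hx : ev Q x = 0
  · simp [hx]
  · simp only [hx, if_false]
    exact hle x hx

theorem Tn_pos (G : Finset ℂ) (t : ℝ) (ht : 0 < t) (n : ℂ → ℕ) (z : ℂ) : 0 < Tn G t n z := by
  unfold Tn
  apply Finset.prod_pos
  intro a _
  exact pow_pos (lt_max_of_lt_right ht) _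

theorem Tn_cont (G : Finset ℂ) (t : ℝ) (n : ℂ → ℕ) : Continuous (fun z => Tn G t n z) := by
  unfold Tn
  fun_prop

theorem logTn_cont (G : Finset ℂ) (t : ℝ) (ht : 0 < t) (n : ℂ → ℕ) :
    Continuous (fun z => Real.log (Tn G t n z)) :=
  (Tn_cont G t n).log (fun z => (Tn_pos G t ht n z).ne')

theorem Tn_congr (G : Finset ℂ) (t : ℝ) (n n' : ℂ → ℕ) (h : ∀ a ∈ G, n a = n' a) (z : ℂ) :
    Tn G t n z = Tn G t n' z := by
  unfold Tn
  apply Finset.prod_congr rfl
  intro a ha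
  rw [h a ha]

/-- one exponent function -/
theorem one_n (G : Finset ℂ) (t : ℝ) (ht : 0 < t) (C : ℝ) (n : ℂ → ℕ) (ν : ℕ)
    (hν : 1 ≤ ν) (hsum : ∑ a ∈ G, n a = ν) (Q : ℤ[X]) (hQ0 : Q ≠ 0) (hdeg : Q.natDegree ≤ 2 * ν)
    (hQ : ∀ z : ℂ, ‖ev Q z‖ ≤ Real.exp (C * (1 + Real.log (ν : ℝ))
      - (∑ a ∈ G, n a * Real.circleAverage (fun z => Real.log (Tn G t n z)) a t) / (ν : ℝ))
      * Tn G t n z ^ 2)
    (Ls : List ℤ[X]) (hsd : sd Ls = Q.natDegree) (hle : ∀ z, ‖ev Ls.prod z‖ ≤ ‖ev Q z‖)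
    (hJ : ∀ a : ℂ, (Ls.map fun P => Lt t P a).sum
      ≤ Real.circleAverage (fun z => Real.log ‖ev Q z‖) a t)
    (κ : ℝ) (hκ : 0 ≤ κ) (hP : ∀ P ∈ Ls, -(κ * ν * P.natDegree) ≤ ∑ a ∈ G, n a * Lt t P a) :
    ∀ z : ℂ, ‖ev Ls.prod z‖
      ≤ Real.exp (2 * κ * ν + 2 * (C * (1 + Real.log ν))) * Tn G t n z ^ 2 := by
  set I : ℝ := ∑ a ∈ G, n a * Real.circleAverage (fun z => Real.log (Tn G t n z)) a t with hI
  set c : ℝ := C * (1 + Real.log (ν : ℝ)) - I / (ν : ℝ) with hc
  have hν' : (0 : ℝ) < ν := by exact_mod_cast hν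
  have h1 : ∀ L : List ℤ[X], (∀ P ∈ L, -(κ * ν * P.natDegree) ≤ ∑ a ∈ G, n a * Lt t P a) →
      -(κ * ν * (sd L : ℝ)) ≤ (L.map fun P => ∑ a ∈ G, n a * Lt t P a).sum := by
    intro L
    induction L with
    | nil => intro _; simp [sd]
    | cons P L ih =>
      intro h
      have h2 := ih (fun P' hP' => h P' (List.mem_cons_of_mem _ hP'))
      have h3 := h P List.mem_cons_self
      have h4 : ((sd (P :: L) : ℕ) : ℝ) = P.natDegree + (sd L : ℝ) := by
        unfold sd
        rw [List.map_cons, List.sum_cons]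
        push_cast
        rfl
      rw [h4, List.map_cons, List.sum_cons]
      linarith
  have h2 : ∀ L : List ℤ[X], (L.map fun P => ∑ a ∈ G, (n a : ℝ) * Lt t P a).sum
      = ∑ a ∈ G, n a * (L.map fun P => Lt t P a).sum := by
    intro L
    induction L with
    | nil => simp
    | cons P L ih =>
      rw [List.map_cons, List.sum_cons, ih, ← Finset.sum_add_distrib]
      apply Finset.sum_congr rfl
      intro a _
      rw [List.map_cons, List.sum_cons]
      ring
  have h3 : ∀ a : ℂ, (Ls.map fun P => Lt t P a).sum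
      ≤ c + 2 * Real.circleAverage (fun z => Real.log (Tn G t n z)) a t := by
    intro a
    refine (hJ a).trans ?_
    have hcont := logTn_cont G t ht n
    have h4 := ca_log_le Q hQ0 (fun z => c + 2 * Real.log (Tn G t n z)) (by fun_prop) (by
      intro z hz
      have hpos : 0 < ‖ev Q z‖ := norm_pos_iff.mpr hz
      have h5 := Real.log_le_log hpos (hQ z)
      rw [Real.log_mul (Real.exp_pos _).ne' (pow_pos (Tn_pos G t ht n z) 2).ne', Real.log_exp,
        Real.log_pow] at h5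
      push_cast at h5
      exact h5) a t ht
    refine h4.trans (le_of_eq ?_)
    have hci : CircleIntegrable (fun z => Real.log (Tn G t n z)) a t :=
      hcont.continuousOn.circleIntegrable ht.le
    have h6 := Real.circleAverage_fun_add (f₁ := fun _ : ℂ => c)
      (f₂ := fun z => (2 : ℝ) • Real.log (Tn G t n z)) (c := a) (R := t)
      (circleIntegrable_const c a t)
      ((hcont.const_smul (2 : ℝ)).continuousOn.circleIntegrable ht.le)
    simp only [smul_eq_mul] at h6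
    rw [h6, Real.circleAverage_const]
    have h7 := Real.circleAverage_fun_smul (a := (2 : ℝ)) (f := fun z => Real.log (Tn G t n z))
      (c := a) (R := t)
    simp only [smul_eq_mul] at h7
    rw [h7]
  have h4 : -(κ * ν * (sd Ls : ℝ)) ≤ ν * c + 2 * I := by
    refine (h1 Ls hP).trans ?_
    rw [h2]
    have h5 : ∑ a ∈ G, (n a : ℝ) * (Ls.map fun P => Lt t P a).sum
        ≤ ∑ a ∈ G, (n a : ℝ) * (c + 2 * Real.circleAverage (fun z => Real.log (Tn G t n z)) a t) := by
      apply Finset.sum_le_sum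
      intro a _
      exact mul_le_mul_of_nonneg_left (h3 a) (Nat.cast_nonneg _)
    refine h5.trans (le_of_eq ?_)
    have h6 : (ν : ℝ) = ∑ a ∈ G, (n a : ℝ) := by
      rw [← hsum]
      push_cast
      rfl
    rw [hI, h6, Finset.sum_mul, Finset.mul_sum, ← Finset.sum_add_distrib]
    apply Finset.sum_congr rfl
    intro a _
    ring
  have h5 : ν * c = ν * (C * (1 + Real.log ν)) - I := by
    rw [hc]
    field_simp
  have h6 : (sd Ls : ℝ) ≤ 2 * ν := by
    rw [hsd]
    exact_mod_cast hdeg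
  have h7 : κ * ν * (sd Ls : ℝ) ≤ κ * ν * (2 * ν) :=
    mul_le_mul_of_nonneg_left h6 (mul_nonneg hκ hν'.le)
  have h8 : -(I / ν) ≤ 2 * κ * ν + C * (1 + Real.log ν) := by
    have h9 : -I ≤ (2 * κ * ν + C * (1 + Real.log ν)) * ν := by
      nlinarith [h4, h5, h7]
    rw [← neg_div, div_le_iff₀ hν']
    exact h9
  intro z
  refine (hle z).trans ((hQ z).trans ?_)
  apply mul_le_mul_of_nonneg_right _ (pow_nonneg (Tn_pos G t ht n z).le 2)
  apply Real.exp_le_exp.mpr
  rw [hc]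
  linarith

/-- block `BASEQ` -/
theorem p_BASEQ (hM : Stmt_MPOLY) (hJ : Stmt_JENL) : Stmt_BASEQ := by
  classical
  intro G t ht hG δ hδ
  obtain ⟨C, hC, hCM⟩ := hM G t ht hG
  have hlit : (fun x : ℝ => C * (1 + Real.log x)) =o[atTop] (fun x : ℝ => x) := by
    apply Asymptotics.IsLittleO.const_mul_left
    exact (Asymptotics.isLittleO_const_id_atTop 1).add Real.isLittleO_log_id_atTop
  have hev : ∀ᶠ ν : ℕ in atTop, ‖C * (1 + Real.log (ν : ℝ))‖ ≤ δ * ‖(ν : ℝ)‖ :=
    tendsto_natCast_atTop_atTop.eventually (hlit.def hδ)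
  obtain ⟨ν₀, hν₀⟩ := eventually_atTop.mp hev
  refine ⟨max ν₀ 1, fun ν hν => ?_⟩
  have hν1 : 1 ≤ ν := (le_max_right _ _).trans hν
  have hν2 : C * (1 + Real.log (ν : ℝ)) ≤ δ * ν := by
    have h := hν₀ ν ((le_max_left _ _).trans hν)
    rw [Real.norm_natCast] at h
    exact (Real.le_norm_self _).trans h
  have key : ∀ n : ℂ → ℕ, ∃ Ls : List ℤ[X], (∀ P ∈ Ls, IP P) ∧
      ((∀ a ∈ G, n (conj a) = n a) → ∑ a ∈ G, n a = ν → sd Ls ≤ 2 * ν ∧
        ∀ κ : ℝ, 0 ≤ κ → (∀ P ∈ Ls, -(κ * ν * P.natDegree) ≤ ∑ a ∈ G, n a * Lt t P a) →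
          ∀ z : ℂ, ‖ev Ls.prod z‖ ≤ Real.exp (2 * ν * (κ + δ)) * Tn G t n z ^ 2) := by
    intro n
    by_cases hn : (∀ a ∈ G, n (conj a) = n a) ∧ ∑ a ∈ G, n a = ν
    · obtain ⟨hs, hsum⟩ := hn
      obtain ⟨Q, hQ0, hdeg, hQ⟩ := hCM n hs (by rw [hsum]; exact hν1)
      obtain ⟨Ls, hIP, hsd, hle, hJJ⟩ := hJ Q hQ0
      refine ⟨Ls, hIP, fun _ _ => ⟨?_, ?_⟩⟩
      · rw [hsd, ← hsum]
        exact hdeg
      · intro κ hκ hP z
        rw [hsum] at hdeg hQ
        have h := one_n G t ht C n ν hν1 hsum Q hQ0 hdeg hQ Ls hsd hle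
          (fun a => hJJ a t ht) κ hκ hP z
        refine h.trans ?_
        apply mul_le_mul_of_nonneg_right _ (pow_nonneg (Tn_pos G t ht n z).le 2)
        apply Real.exp_le_exp.mpr
        nlinarith
    · exact ⟨[], by simp, fun h1 h2 => absurd ⟨h1, h2⟩ hn⟩
  choose LL hIP hLL using key
  let ex : (G → Fin (ν + 1)) → ℂ → ℕ := fun f a => if h : a ∈ G then (f ⟨a, h⟩ : ℕ) else 0
  refine ⟨(Finset.univ : Finset (G → Fin (ν + 1))).biUnion (fun f => (LL (ex f)).toFinset),
    ?_, ?_⟩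
  · intro P hP
    rw [Finset.mem_biUnion] at hP
    obtain ⟨f, _, hf⟩ := hP
    exact hIP _ P (List.mem_toFinset.mp hf)
  · intro n κ hs hsum hκ hP
    have hlt : ∀ a : G, n a < ν + 1 := by
      intro a
      have h : n a ≤ ∑ b ∈ G, n b := Finset.single_le_sum (f := n) (fun _ _ => Nat.zero_le _) a.2
      omega
    let f : G → Fin (ν + 1) := fun a => ⟨n a, hlt a⟩
    have hex : ∀ a ∈ G, ex f a = n a := by
      intro a ha
      simp only [ex, ha, dif_pos, f]
    have hs' : ∀ a ∈ G, ex f (conj a) = ex f a := by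
      intro a ha
      rw [hex a ha, hex _ (hG a ha), hs a ha]
    have hsum' : ∑ a ∈ G, ex f a = ν := by
      rw [← hsum]
      exact Finset.sum_congr rfl hex
    obtain ⟨h1, h2⟩ := hLL (ex f) hs' hsum'
    have hmem : ∀ P ∈ LL (ex f), P ∈ (Finset.univ : Finset (G → Fin (ν + 1))).biUnion
        (fun f => (LL (ex f)).toFinset) := by
      intro P hP'
      rw [Finset.mem_biUnion]
      exact ⟨f, Finset.mem_univ _, List.mem_toFinset.mpr hP'⟩
    refine ⟨LL (ex f), hmem, h1, ?_⟩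
    intro z
    rw [← Tn_congr G t (ex f) n hex z]
    apply h2 κ hκ
    intro P hP'
    refine (hP P (hmem P hP')).trans (le_of_eq ?_)
    apply Finset.sum_congr rfl
    intro a ha
    rw [hex a ha]

end Pool.Agent.Work.MP_ce2d68_du_h90
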