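import Pool.Agent.Work.MP_ce2d68_du.Interface
import Pool.Agent.Work.MP_ce2d68_st_helper90.ETG

set_option autoImplicit false

open Polynomial Filter Topology
open scoped ComplexConjugate

/-!
Block `EXT`: the existence theorem (after `Work/MP_ce2d68_st_helper90/ETG.lean`).
-/

namespace Pool.Agent.Work.MP_ce2d68_du_h90

open Pool.Agent.Work.MP_ce2d68_st Pool.Agent.Work.MP_ce2d68_du
open Pool.Agent.Work.MP_ce2d68_st.helper90

theorem rv_add (f g : ℝ[X]) (z : ℂ) : rv (f + g) z = rv f z + rv g z := by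
  simp [rv]

theorem rv_intmul (P : ℤ[X]) (g : ℝ[X]) (z : ℂ) :
    rv (P.map (Int.castRingHom ℝ) * g) z = ev P z * rv g z := by
  have h : (P.map (Int.castRingHom ℝ)).map (algebraMap ℝ ℂ) = cp P := by
    rw [cp, Polynomial.map_map]
    congr 1
  simp only [rv, ev, Polynomial.map_mul, eval_mul, h]

theorem ev_pow (P : ℤ[X]) (s : ℕ) (z : ℂ) : ev (P ^ s) z = ev P z ^ s := by
  simp [ev, cp]

theorem deg_of_nat (D : ℕ) (P u : ℤ[X]) (a b : ℕ) (hP : P.natDegree ≤ a)
    (hu : u.degree < (b : WithBot ℕ)) (hab : a + b ≤ D) : (P * u).degree < (D : WithBot ℕ) := by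
  by_cases hu0 : u = 0
  · rw [hu0, mul_zero, degree_zero]
    exact WithBot.bot_lt_coe _
  · have h1 : u.natDegree < b := (Polynomial.natDegree_lt_iff_degree_lt hu0).mpr hu
    refine lt_of_le_of_lt Polynomial.degree_le_natDegree ?_
    have h2 : (P * u).natDegree ≤ P.natDegree + u.natDegree := Polynomial.natDegree_mul_le
    have h3 : (P * u).natDegree < D := by omega
    exact_mod_cast h3

/-- block `EXT` -/
theorem p_EXT (hK' : Stmt_NBLK) (hTOPP : Stmt_TOPP) (hMAXP : Stmt_MAXP) (hEIS : Stmt_EIS) :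
    Stmt_EXT := by
  intro K Ls D m TP TO p₀ p lam A om hK hKc hIP hsd hD1 hTP hTPs hTO hTOpos hTOs hlam hA hi hii hiii
    hiv hp₀ hp₀r hp₀d hp₀K hp hpd hpr hpK hpoff hB N₀
  have hTPpos := hTP.2.1
  -- the function T
  set T : ℂ → ℝ := fun z => TP z * TO z with hT
  have hTpos : ∀ z, 0 < T z := fun z => by
    have := hTPpos z
    have := hTOpos z
    simp only [hT]; positivity
  have hTcont : Continuous T := by
    have h1 := hTP.1
    simp only [hT]
    fun_prop
  have hTsym : Sym T := by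
    intro z
    simp only [hT]
    rw [hTPs z, hTOs z]
  obtain ⟨c, hc0, hc⟩ := hK' K Ls D TP p₀ A hK hKc hIP hsd hTP hTPs hp₀ hp₀r hp₀d hp₀K hA hiii
  -- the constant C₀
  obtain ⟨C₀, hC₀1, hC₀⟩ : ∃ C₀ : ℝ, 1 ≤ C₀ ∧ ∀ z ∈ K, 1 ≤ C₀ * TP z := by
    have hcont : ContinuousOn (fun z : ℂ => 1 / TP z) K := by
      apply Continuous.continuousOn
      exact continuous_const.div hTP.1 (fun z => (hTPpos z).ne')
    obtain ⟨B, hB'⟩ := hK.bddAbove_image hcont
    refine ⟨max B 1, le_max_right _ _, ?_⟩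
    intro z hz
    have h1 : 1 / TP z ≤ max B 1 := (hB' ⟨z, hz, rfl⟩).trans (le_max_left _ _)
    rwa [div_le_iff₀ (hTPpos z)] at h1
  have hC₀0 : 0 < C₀ := by linarith
  obtain ⟨N, hN0, hN1, hNsmall⟩ := exists_large c C₀ 0 0 N₀
  refine ⟨N, hN0, ?_⟩
  have hNsmall' : N * (c * C₀ * Real.exp (-(N : ℝ))) ≤ 1 / 4 := by
    have h1 : c * (C₀ * N * Real.exp (-(N : ℝ)) + 0 * N * Real.exp (0 - N))
        = N * (c * C₀ * Real.exp (-(N : ℝ))) := by ring
    rwa [h1] at hNsmall
  -- degrees
  set n := N * (D + m) with hn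
  set m' := N * m with hm'
  have hnm : n - m' = N * D := by
    have h2 : n = m' + N * D := by
      rw [hn, hm']
      ring
    rw [h2, Nat.add_sub_cancel_left]
  have hpos : 1 ≤ N * D := Nat.one_le_iff_ne_zero.mpr (by positivity)
  have hmn : m' < n := by omega
  -- the polynomial H
  set H : ℤ[X] := X ^ (N * D) with hH
  have hHm : H.Monic := monic_X_pow _
  have hHd : H.natDegree = n - m' := by
    rw [hnm, hH, natDegree_X_pow]
  -- real versions
  obtain ⟨pR, hpR, hpRd, hpRm⟩ := exists_real_of_RealP p hpr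
  have hpRm' := hpRm hp
  have hBex : ∀ i ∈ Finset.Icc 1 m', ∃ B : ℝ[X], B.Monic ∧ B.natDegree = n - i ∧
      ∀ z ∈ K, ‖rv B z‖ ≤ (1 / 10 : ℝ) ^ i * T z ^ N := by
    intro i hi'
    obtain ⟨B, hB1, hB2, hB3, hB4⟩ := hB N hN1 i hi'
    obtain ⟨BR, hBR, hBRd, hBRm⟩ := exists_real_of_RealP B hB2
    refine ⟨BR, hBRm hB1, by rw [hBRd, hB3], ?_⟩
    intro z hz
    rw [rv, hBR]
    exact hB4 z hz
  choose! B hBm hBd hBb using hBex
  obtain ⟨t, v, ht, hvd, hdeg⟩ := hTOPP n m' H (pR ^ N) B hmn hHm hHd (hpRm'.pow N)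
    (by rw [hpRm'.natDegree_pow, hpRd, hpd]) (fun i hi' => ⟨hBm i hi', hBd i hi'⟩)
  rw [hnm] at hdeg
  set f : ℝ[X] := pR ^ N + ∑ i ∈ Finset.Icc 1 m', C (t i) * B i - X ^ n - 2
        - 4 * (H * v).map (Int.castRingHom ℝ) with hf
  -- the blocks
  have hLd : Ls.prod.natDegree ≤ D := (Polynomial.natDegree_list_prod_le Ls).trans hsd
  set η : ℝ := c * C₀ * Real.exp (-(N : ℝ)) with hη
  have hη0 : 0 ≤ η := by positivity
  have hmax0 : 0 ≤ max A lam := hA.trans (le_max_left _ _)
  have hblk : ∀ s : ℕ, s ≤ N → ∃ (U : ℤ[X]) (h f₂ : ℝ[X]), U.degree < ((N * D : ℕ) : WithBot ℕ) ∧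
      f₂.degree < (((N - s) * D : ℕ) : WithBot ℕ) ∧
      f = 4 * U.map (Int.castRingHom ℝ) + h + (Ls.prod ^ s).map (Int.castRingHom ℝ) * f₂ ∧
      ∀ z ∈ K, ‖rv h z‖ ≤ s * η * T z ^ N := by
    intro s
    induction s with
    | zero =>
      intro _
      refine ⟨0, 0, f, ?_, ?_, ?_, ?_⟩
      · rw [degree_zero]; exact WithBot.bot_lt_coe _
      · rw [Nat.sub_zero]; exact hdeg
      · simp
      · intro z _
        simp [rv]
    | succ s ih =>
      intro hs
      obtain ⟨U, h, f₂, hU, hf₂, hfe, hhb⟩ := ih (by omega)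
      set M := N - 1 - s with hM
      have hMs : N - s = M + 1 := by omega
      have hMs' : N - (s + 1) = M := by omega
      have hNM : (N : ℝ) = s + 1 + M := by
        have : N = s + 1 + M := by omega
        exact_mod_cast this
      rw [hMs] at hf₂
      set E : ℝ := C₀ * Real.exp (lam * s - om * N) with hE
      have hE0 : 0 < E := by positivity
      obtain ⟨u, h', f₃, hu, hf₃, hfe', hhb'⟩ := hc M (Ls.prod ^ s) (fun z => T z ^ N) E hE0
        (by intro z; simp only; rw [hTsym z])
        (fun z _ => (pow_pos (hTpos z) N).le)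
        (by
          intro z hz
          have hpz := hTPpos z
          have hoz := hTOpos z
          rw [ev_pow, norm_pow]
          have e1 : ‖ev Ls.prod z‖ ^ s ≤ (Real.exp lam * TP z) ^ s :=
            pow_le_pow_left₀ (norm_nonneg _) (hi z hz) s
          have e2 : Real.exp (om * N) ≤ TO z ^ N := by
            have : Real.exp (om * N) = Real.exp om ^ N := by
              rw [← Real.exp_nat_mul]; congr 1; ring
            rw [this]
            exact pow_le_pow_left₀ (Real.exp_pos _).le (hii z hz) N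
          have e3 : E * T z ^ N = Real.exp (lam * s) * (C₀ * TP z) * (TP z ^ s * TP z ^ M)
              * (Real.exp (-(om * N)) * TO z ^ N) := by
            have hNn : N = s + M + 1 := by omega
            have e4 : TP z ^ N = TP z ^ s * TP z ^ M * TP z := by
              conv_lhs => rw [hNn]
              rw [pow_succ, pow_add]
            have e5 : Real.exp (lam * s - om * N) = Real.exp (lam * s) * Real.exp (-(om * N)) := by
              rw [← Real.exp_add]; congr 1
            simp only [hE, hT]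
            rw [mul_pow, e4, e5]
            ring
          have e6 : (1 : ℝ) ≤ Real.exp (-(om * N)) * TO z ^ N := by
            calc (1 : ℝ) = Real.exp (-(om * N)) * Real.exp (om * N) := by
                  rw [← Real.exp_add]; simp
              _ ≤ _ := mul_le_mul_of_nonneg_left e2 (Real.exp_pos _).le
          have e7 : (Real.exp lam * TP z) ^ s = Real.exp (lam * s) * TP z ^ s := by
            rw [mul_pow, ← Real.exp_nat_mul]
            congr 2
            ring
          show ‖ev Ls.prod z‖ ^ s * TP z ^ M ≤ E * T z ^ N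
          calc ‖ev Ls.prod z‖ ^ s * TP z ^ M ≤ (Real.exp lam * TP z) ^ s * TP z ^ M :=
                mul_le_mul_of_nonneg_right e1 (by positivity)
            _ = Real.exp (lam * s) * 1 * (TP z ^ s * TP z ^ M) * 1 := by rw [e7]; ring
            _ ≤ Real.exp (lam * s) * (C₀ * TP z) * (TP z ^ s * TP z ^ M)
                * (Real.exp (-(om * N)) * TO z ^ N) := by
                apply mul_le_mul _ e6 (by norm_num) (by positivity)
                apply mul_le_mul_of_nonneg_right _ (by positivity)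
                exact mul_le_mul_of_nonneg_left (hC₀ z hz) (Real.exp_pos _).le
            _ = E * T z ^ N := e3.symm)
        f₂ hf₂
      have hPs : (Ls.prod ^ s).natDegree ≤ s * D :=
        Polynomial.natDegree_pow_le.trans (Nat.mul_le_mul_left s hLd)
      have hND : s * D + (M + 1) * D = N * D := by
        rw [← add_mul]
        congr 1
        omega
      refine ⟨U + Ls.prod ^ s * u, h + (Ls.prod ^ s).map (Int.castRingHom ℝ) * h', f₃, ?_, ?_, ?_, ?_⟩
      · refine lt_of_le_of_lt (degree_add_le _ _) (max_lt hU ?_)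
        exact deg_of_nat (N * D) _ _ (s * D) ((M + 1) * D) hPs hu hND.le
      · rw [hMs']
        exact hf₃
      · rw [hfe, hfe', pow_succ]
        simp only [Polynomial.map_add, Polynomial.map_mul]
        ring
      · intro z hz
        have hTN := pow_pos (hTpos z) N
        rw [rv_add, rv_intmul]
        refine (norm_add_le _ _).trans ?_
        rw [norm_mul]
        have e1 := hhb z hz
        have e2 : ‖ev (Ls.prod ^ s) z‖ * ‖rv h' z‖ ≤ c * Real.exp (A * M) * E * T z ^ N := hhb' z hz
        have e3 : c * Real.exp (A * M) * E ≤ η := by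
          have e4 : c * Real.exp (A * M) * E = c * C₀ * Real.exp (A * M + (lam * s - om * N)) := by
            rw [hE, Real.exp_add]
            ring
          rw [e4, hη]
          apply mul_le_mul_of_nonneg_left _ (by positivity)
          apply Real.exp_le_exp.mpr
          have hM0 : (0 : ℝ) ≤ M := Nat.cast_nonneg _
          have hs0 : (0 : ℝ) ≤ s := Nat.cast_nonneg _
          have g1 : A * M ≤ max A lam * M := mul_le_mul_of_nonneg_right (le_max_left _ _) hM0
          have g2 : lam * s ≤ max A lam * s := mul_le_mul_of_nonneg_right (le_max_right _ _) hs0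
          have g3 : (max A lam + 1) * N ≤ om * N :=
            mul_le_mul_of_nonneg_right hiv (Nat.cast_nonneg _)
          have g4 : max A lam * M + max A lam * s ≤ max A lam * N := by
            rw [hNM]
            nlinarith
          nlinarith
        have e5 : c * Real.exp (A * M) * E * T z ^ N ≤ η * T z ^ N :=
          mul_le_mul_of_nonneg_right e3 hTN.le
        push_cast
        calc ‖rv h z‖ + ‖ev (Ls.prod ^ s) z‖ * ‖rv h' z‖ ≤ s * η * T z ^ N + η * T z ^ N :=
              add_le_add e1 (e2.trans e5)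
          _ = (s + 1) * η * T z ^ N := by ring
  obtain ⟨U, h, f₂, hUd, hf₂, hfe0, hhb⟩ := hblk N le_rfl
  have hf₂0 : f₂ = 0 := by
    rw [Nat.sub_self, zero_mul] at hf₂
    rw [← Polynomial.degree_eq_bot]
    by_contra hne
    have h1 : f₂ ≠ 0 := fun h0 => hne (by rw [h0, degree_zero])
    rw [degree_eq_natDegree h1] at hf₂
    have : f₂.natDegree < 0 := by exact_mod_cast hf₂
    omega
  have hfe : f = 4 * U.map (Int.castRingHom ℝ) + h := by
    rw [hf₂0, mul_zero, add_zero] at hfe0
    exact hfe0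
  -- the error term
  have hhb' : ∀ z ∈ K, ‖rv h z‖ ≤ 1 / 4 * T z ^ N := by
    intro z hz
    refine (hhb z hz).trans ?_
    exact mul_le_mul_of_nonneg_right hNsmall' (pow_pos (hTpos z) N).le
  -- the polynomial F
  have hHvU : (H * v + U).degree < (n : WithBot ℕ) := by
    refine lt_of_le_of_lt (degree_add_le _ _) (max_lt ?_ ?_)
    · by_cases hv0 : v = 0
      · rw [hv0, mul_zero, degree_zero]; exact WithBot.bot_lt_coe _
      · have h1 : v.natDegree < m' := (Polynomial.natDegree_lt_iff_degree_lt hv0).mpr hvd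
        have h2 : (H * v).natDegree < n := by
          refine lt_of_le_of_lt Polynomial.natDegree_mul_le ?_
          rw [hHd]
          omega
        exact (Polynomial.natDegree_lt_iff_degree_lt (mul_ne_zero hHm.ne_zero hv0)).mp h2
    · refine hUd.trans_le ?_
      have : N * D ≤ n := by omega
      exact_mod_cast this
  obtain ⟨hFm, hFd, hFi, hF0⟩ := hEIS n (H * v + U) (by omega) hHvU
  set F : ℤ[X] := X ^ n + 2 + 4 * (H * v + U) with hF
  have hFR : F.map (Int.castRingHom ℝ)
      = pR ^ N + ∑ i ∈ Finset.Icc 1 m', C (t i) * B i - h := by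
    have h1 : F.map (Int.castRingHom ℝ) = X ^ n + 2 + 4 * (H * v).map (Int.castRingHom ℝ)
        + 4 * U.map (Int.castRingHom ℝ) := by
      rw [hF]
      simp only [Polynomial.map_add, Polynomial.map_mul, Polynomial.map_pow, Polynomial.map_X,
        Polynomial.map_ofNat]
      ring
    have h2 : f - 4 * U.map (Int.castRingHom ℝ) = h := by rw [hfe]; ring
    rw [h1, ← h2, hf]
    ring
  have hFev : ∀ z : ℂ, ev F z = (p.eval z) ^ N + ∑ i ∈ Finset.Icc 1 m', (t i : ℂ) * rv (B i) z
      - rv h z := by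
    intro z
    have h1 : ev F z = ((F.map (Int.castRingHom ℝ)).map (algebraMap ℝ ℂ)).eval z := by
      rw [ev, cp, Polynomial.map_map]
      congr 2
    rw [h1, hFR]
    simp only [Polynomial.map_sub, Polynomial.map_add, Polynomial.map_pow, hpR,
      Polynomial.map_sum, Polynomial.map_mul, Polynomial.map_C, eval_sub, eval_add, eval_pow,
      Polynomial.eval_finsetSum, eval_mul, eval_C, rv]
    rfl
  have hFK : ∀ z ∈ K, ‖ev F z - (p.eval z) ^ N‖ ≤ 1 / 2 * T z ^ N := by
    intro z hz
    have hTN := pow_pos (hTpos z) N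
    have h1 : ev F z - (p.eval z) ^ N = ∑ i ∈ Finset.Icc 1 m', (t i : ℂ) * rv (B i) z - rv h z := by
      rw [hFev]; ring
    rw [h1]
    have h2 : ‖∑ i ∈ Finset.Icc 1 m', (t i : ℂ) * rv (B i) z‖ ≤ 2 / 9 * T z ^ N := by
      calc ‖∑ i ∈ Finset.Icc 1 m', (t i : ℂ) * rv (B i) z‖
          ≤ ∑ i ∈ Finset.Icc 1 m', ‖(t i : ℂ) * rv (B i) z‖ := norm_sum_le _ _
        _ ≤ ∑ i ∈ Finset.Icc 1 m', (1 / 10 : ℝ) ^ i * (2 * T z ^ N) := by
            apply Finset.sum_le_sum
            intro i hi'
            rw [norm_mul, Complex.norm_real, Real.norm_eq_abs]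
            have h3 := hBb i hi' z hz
            calc |t i| * ‖rv (B i) z‖ ≤ 2 * ((1 / 10 : ℝ) ^ i * T z ^ N) :=
                  mul_le_mul (ht i) h3 (norm_nonneg _) (by norm_num)
              _ = _ := by ring
        _ = (∑ i ∈ Finset.Icc 1 m', (1 / 10 : ℝ) ^ i) * (2 * T z ^ N) := by
            rw [Finset.sum_mul]
        _ ≤ 1 / 9 * (2 * T z ^ N) := mul_le_mul_of_nonneg_right (geo_bound m') (by positivity)
        _ = _ := by ring
    calc ‖∑ i ∈ Finset.Icc 1 m', (t i : ℂ) * rv (B i) z - rv h z‖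
        ≤ ‖∑ i ∈ Finset.Icc 1 m', (t i : ℂ) * rv (B i) z‖ + ‖rv h z‖ := norm_sub_le _ _
      _ ≤ 2 / 9 * T z ^ N + 1 / 4 * T z ^ N := add_le_add h2 (hhb' z hz)
      _ ≤ 1 / 2 * T z ^ N := by nlinarith
  have hFoff : ∀ z, z ∉ K → ‖ev F z - (p.eval z) ^ N‖ ≤ 1 / 2 * ‖(p.eval z) ^ N‖ := by
    have hpN : (p ^ N).natDegree = n := by rw [hp.natDegree_pow, hpd]
    have hcF : (cp F).Monic := hFm.map _
    have hcFd : (cp F).natDegree = n := by
      rw [cp, hFm.natDegree_map, hFd]
    have hdeg' : (cp F - p ^ N).degree < (p ^ N).degree := by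
      have h1 : (cp F).degree = (p ^ N).degree := by
        rw [degree_eq_natDegree hcF.ne_zero, degree_eq_natDegree (hp.pow N).ne_zero, hcFd, hpN]
      have h2 : (cp F - p ^ N).degree < (cp F).degree := by
        apply degree_sub_lt_left h1 hcF.ne_zero
        rw [hcF.leadingCoeff, (hp.pow N).leadingCoeff]
      rwa [h1] at h2
    have h3 := hMAXP K (fun z => T z ^ N) (cp F - p ^ N) (p ^ N) hK (hTcont.pow N) hdeg'
      (fun z => pow_pos (hTpos z) N)
      (fun z hz => by rw [eval_pow, norm_pow, hpoff z hz])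
      (fun z hz => by
        have := hFK z hz
        rw [eval_sub, eval_pow]
        exact this)
    intro z hz
    have := h3 z hz
    rw [eval_sub, eval_pow] at this
    exact this
  refine ⟨F, hFm, hFd, hFi, hF0, ?_, ?_⟩
  · intro z hz0
    by_contra hzK
    have h1 := hFoff z hzK
    rw [hz0, zero_sub, norm_neg] at h1
    have h2 : 0 < ‖(p.eval z) ^ N‖ := by
      rw [norm_pow, hpoff z hzK]
      exact pow_pos (hTpos z) N
    linarith
  · intro z
    by_cases hzK : z ∈ K
    · have h1 := hFK z hzK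
      have h2 : ‖(p.eval z) ^ N‖ ≤ T z ^ N := by
        rw [norm_pow]
        exact pow_le_pow_left₀ (norm_nonneg _) (hpK z hzK) N
      calc ‖ev F z‖ = ‖(ev F z - (p.eval z) ^ N) + (p.eval z) ^ N‖ := by rw [sub_add_cancel]
        _ ≤ ‖ev F z - (p.eval z) ^ N‖ + ‖(p.eval z) ^ N‖ := norm_add_le _ _
        _ ≤ 1 / 2 * T z ^ N + T z ^ N := add_le_add h1 h2
        _ = 3 / 2 * T z ^ N := by ring
    · have h1 := hFoff z hzK
      have h2 : ‖(p.eval z) ^ N‖ = T z ^ N := by
        rw [norm_pow, hpoff z hzK]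
      rw [h2] at h1
      calc ‖ev F z‖ = ‖(ev F z - (p.eval z) ^ N) + (p.eval z) ^ N‖ := by rw [sub_add_cancel]
        _ ≤ ‖ev F z - (p.eval z) ^ N‖ + ‖(p.eval z) ^ N‖ := norm_add_le _ _
        _ ≤ 1 / 2 * T z ^ N + T z ^ N := add_le_add h1 h2.le
        _ = 3 / 2 * T z ^ N := by ring

end Pool.Agent.Work.MP_ce2d68_du_h90
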